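import Mathlib
import Pool.Agent.Helper29_CF.Top

namespace Pool.Agent.Results.MP_dcfb8f_co.AllPairs

open Finset Pool.Agent.Helper29_CF

/-- `c` is a conflict-free colouring of the hypergraph with vertex set `V` and edge set `E`:
every edge contains a vertex whose colour is used by no other vertex of that edge. -/
def IsConflictFree {V : Type*} (E : Finset (Finset V)) {k : ℕ} (c : V → Fin k) : Prop :=
  ∀ e ∈ E, ∃ v ∈ e, ∀ u ∈ e, u ≠ v → c u ≠ c v

/-- Every finite `r`-uniform hypergraph in which every vertex lies in at most `Δ` edges has a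
conflict-free colouring with `Δ` colours, for all `r ≥ 5` and `Δ ≥ 3`. -/
theorem result (r Δ : ℕ) (hr : 5 ≤ r) (hΔ : 3 ≤ Δ) {V : Type*} [Fintype V] [DecidableEq V]
    (E : Finset (Finset V)) (hunif : ∀ e ∈ E, e.card = r)
    (hdeg : ∀ v : V, (E.filter (fun e => v ∈ e)).card ≤ Δ) :
    ∃ c : V → Fin Δ, IsConflictFree E c :=
  final_of H73.red dual_all r Δ hr hΔ E hunif hdeg

end Pool.Agent.Results.MP_dcfb8f_co.AllPairs
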